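import Pool.Agent.R29.OP.G2
import Pool.Agent.R29.OP.F

/-!
# Combinatorial-type classes of orbit polytopes need not be submanifolds (MP_7b675e_co, Q1)

`E k` is Euclidean space `ℝ^k`; the elements of `E k ≃ₗᵢ[ℝ] E k` are the elements of `O(k)`.

The example: `k = 4`, `Γ` is a group of 48 signed permutation matrices (isomorphic to `GL(2,3)`),
`r = 5` and `w = (2, 4, 1, 2)`.  Near `w` the class of `w` in the sphere of radius 5 is the union
of the intersections of the sphere with the two hyperplanes `x₁ = x₄` and `x₂ = x₁ + x₄`, which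
cross at `w`.
-/

set_option autoImplicit false

open Set Metric

namespace Pool.Agent.Results.MP_7b675e_co.TypeClassNotSubmanifold

/-- Euclidean space `ℝ^k`. -/
abbrev E (k : ℕ) := EuclideanSpace ℝ (Fin k)

/-- The orbit polytope `Q_w = conv (Γ w)`. -/
def orbitPolytope {k : ℕ} (Γ : Subgroup (E k ≃ₗᵢ[ℝ] E k)) (w : E k) : Set (E k) :=
  convexHull ℝ {x | ∃ g ∈ Γ, g w = x}

/-- The face lattice of a polytope `P`, ordered by inclusion.  The faces are the exposed subsets
in Mathlib's sense: the empty set, and the sets of the points of `P` where some continuous linear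
functional attains its maximum over `P` (the zero functional gives `P` itself). -/
abbrev FaceLattice {k : ℕ} (P : Set (E k)) := {F : Set (E k) // IsExposed ℝ P F}

/-- Two polytopes have the same combinatorial type: their face lattices are isomorphic as
partially ordered sets. -/
def SameType {k : ℕ} (P P' : Set (E k)) : Prop := Nonempty (FaceLattice P ≃o FaceLattice P')

/-- The combinatorial-type class of `w` in the sphere of radius `r` about the origin. -/
def typeClass {k : ℕ} (Γ : Subgroup (E k ≃ₗᵢ[ℝ] E k)) (r : ℝ) (w : E k) : Set (E k) :=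
  {w' | w' ∈ sphere (0 : E k) r ∧ SameType (orbitPolytope Γ w') (orbitPolytope Γ w)}

/-- `M` is an embedded `C¹` submanifold of `ℝ^k` (of any dimension, which may even vary from one
point to another): about each of its points some local `C¹` diffeomorphism of `ℝ^k` carries `M`
onto an open part of a linear subspace. -/
def IsC1Submanifold {k : ℕ} (M : Set (E k)) : Prop :=
  ∀ x ∈ M, ∃ (φ : OpenPartialHomeomorph (E k) (E k)) (W : Submodule ℝ (E k)),
    x ∈ φ.source ∧ ContDiffOn ℝ 1 φ φ.source ∧ ContDiffOn ℝ 1 φ.symm φ.target ∧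
      φ '' (M ∩ φ.source) = (W : Set (E k)) ∩ φ.target

/-- There are `k`, a finite subgroup `Γ` of `O(k)`, a radius `r > 0` and a point `w` of the sphere
of radius `r` such that the connected component of `w` in its combinatorial-type class is not an
embedded `C¹` submanifold of `ℝ^k`. -/
theorem result : ∃ (k : ℕ) (Γ : Subgroup (E k ≃ₗᵢ[ℝ] E k)) (r : ℝ) (w : E k),
    1 ≤ k ∧ Finite Γ ∧ 0 < r ∧ w ∈ sphere (0 : E k) r ∧
      ¬ IsC1Submanifold (connectedComponentIn (typeClass Γ r w) w) :=
  Pool.Agent.R29.OP.main Pool.Agent.R29.OP.nearZ Pool.Agent.R29.OP.near Pool.Agent.R29.OP.offZ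

end Pool.Agent.Results.MP_7b675e_co.TypeClassNotSubmanifold
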